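import Pool.Agent.Helper55.TM.Basic

/-!
# MP_fc8395_an: module LL, limits of functions with bounded derivatives
-/

set_option autoImplicit false

open scoped ContDiff Topology
open Filter Set

namespace TM

/-- second order Taylor bound -/
lemma LL_taylor {a b C : ℝ} {u u' u'' : ℝ → ℝ}
    (h1 : ∀ x ∈ Ioo a b, HasDerivAt u (u' x) x) (h2 : ∀ x ∈ Ioo a b, HasDerivAt u' (u'' x) x)
    (hC : ∀ x ∈ Ioo a b, |u'' x| ≤ C) {x y : ℝ} (hx : x ∈ Ioo a b) (hy : y ∈ Ioo a b) :
    |u y - u x - (y - x) * u' x| ≤ C * (y - x) ^ 2 := by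
  have hC0 : 0 ≤ C := (abs_nonneg _).trans (hC x hx)
  have hsub : uIcc x y ⊆ Ioo a b := Set.OrdConnected.uIcc_subset ordConnected_Ioo hx hy
  have hlip : ∀ t ∈ uIcc x y, ‖u' t - u' x‖ ≤ C * |y - x| := by
    intro t ht
    have h3 : ‖u' t - u' x‖ ≤ C * ‖t - x‖ := by
      refine (convex_Ioo a b).norm_image_sub_le_of_norm_hasDerivWithin_le
        (fun z hz => (h2 z hz).hasDerivWithinAt) (fun z hz => ?_) hx (hsub ht)
      exact hC z hz
    refine h3.trans (mul_le_mul_of_nonneg_left ?_ hC0)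
    rw [Real.norm_eq_abs]
    exact Set.abs_sub_left_of_mem_uIcc ht
  have h4 : ‖(u y - y * u' x) - (u x - x * u' x)‖ ≤ C * |y - x| * ‖y - x‖ := by
    refine (convex_uIcc x y).norm_image_sub_le_of_norm_hasDerivWithin_le
      (f := fun t => u t - t * u' x) (f' := fun t => u' t - 1 * u' x)
      (fun z hz => ?_) (fun z hz => ?_) left_mem_uIcc right_mem_uIcc
    · exact ((h1 z (hsub hz)).sub ((hasDerivAt_id z).mul_const (u' x))).hasDerivWithinAt
    · rw [one_mul]; exact hlip z hz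
  have h5 : (u y - y * u' x) - (u x - x * u' x) = u y - u x - (y - x) * u' x := by ring
  rw [h5, Real.norm_eq_abs, Real.norm_eq_abs, mul_assoc, abs_mul_abs_self] at h4
  rw [pow_two]
  exact h4

/-- pointwise convergence of the derivatives -/
lemma LL_cauchy {a b C : ℝ} {u u' u'' : ℕ → ℝ → ℝ}
    (h1 : ∀ N, ∀ x ∈ Ioo a b, HasDerivAt (u N) (u' N x) x)
    (h2 : ∀ N, ∀ x ∈ Ioo a b, HasDerivAt (u' N) (u'' N x) x)
    (hC : ∀ N, ∀ x ∈ Ioo a b, |u'' N x| ≤ C)
    (hl : ∀ x ∈ Ioo a b, ∃ l, Tendsto (fun N => u N x) atTop (𝓝 l)) {x : ℝ}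
    (hx : x ∈ Ioo a b) : ∃ l, Tendsto (fun N => u' N x) atTop (𝓝 l) := by
  apply cauchySeq_tendsto_of_complete
  rw [Metric.cauchySeq_iff']
  intro ε hε
  have hC0 : 0 ≤ C := (abs_nonneg _).trans (hC 0 x hx)
  -- the step
  obtain ⟨h, hh0, hhb, hhC⟩ : ∃ h : ℝ, 0 < h ∧ x + h < b ∧ 2 * C * h < ε / 2 := by
    have hxb : 0 < b - x := by linarith [hx.2]
    refine ⟨min ((b - x) / 2) (ε / (4 * (C + 1))) , ?_, ?_, ?_⟩
    · apply lt_min
      · linarith
      · positivity
    · have := min_le_left ((b - x) / 2) (ε / (4 * (C + 1)))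
      linarith
    · have h3 := min_le_right ((b - x) / 2) (ε / (4 * (C + 1)))
      have h4 : 2 * C * min ((b - x) / 2) (ε / (4 * (C + 1))) ≤ 2 * C * (ε / (4 * (C + 1))) :=
        mul_le_mul_of_nonneg_left h3 (by linarith)
      have h5 : 2 * C * (ε / (4 * (C + 1))) < ε / 2 := by
        have h6 : 0 < 4 * (C + 1) := by linarith
        rw [← mul_div_assoc, div_lt_div_iff₀ h6 (by norm_num)]
        nlinarith
      linarith
  have hxh : x + h ∈ Ioo a b := ⟨by linarith [hx.1], hhb⟩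
  obtain ⟨l0, hl0⟩ := hl x hx
  obtain ⟨l1, hl1⟩ := hl (x + h) hxh
  have hc0 := hl0.cauchySeq
  have hc1 := hl1.cauchySeq
  rw [Metric.cauchySeq_iff'] at hc0 hc1
  have hδ : 0 < h * ε / 4 := by positivity
  obtain ⟨N0, hN0⟩ := hc0 (h * ε / 4) hδ
  obtain ⟨N1, hN1⟩ := hc1 (h * ε / 4) hδ
  have hc0' := hl0.cauchySeq
  have hc1' := hl1.cauchySeq
  rw [Metric.cauchySeq_iff] at hc0' hc1'
  obtain ⟨M0, hM0⟩ := hc0' (h * ε / 4) hδ
  obtain ⟨M1, hM1⟩ := hc1' (h * ε / 4) hδ
  refine ⟨max M0 M1, fun n hn => ?_⟩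
  have hn0 : M0 ≤ n := (le_max_left _ _).trans hn
  have hn1 : M1 ≤ n := (le_max_right _ _).trans hn
  have e0 := hM0 n hn0 (max M0 M1) (le_max_left _ _)
  have e1 := hM1 n hn1 (max M0 M1) (le_max_right _ _)
  rw [Real.dist_eq] at e0 e1 ⊢
  set M := max M0 M1
  have t1 := LL_taylor (h1 n) (h2 n) (hC n) hx hxh
  have t2 := LL_taylor (h1 M) (h2 M) (hC M) hx hxh
  have hxx : x + h - x = h := by ring
  rw [hxx] at t1 t2
  rw [abs_lt] at e0 e1 ⊢
  rw [abs_le] at t1 t2
  have k1 : h * (u' n x - u' M x) < h * ε := by nlinarith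
  have k2 : -(h * ε) < h * (u' n x - u' M x) := by nlinarith
  constructor
  · by_contra hcon
    push Not at hcon
    nlinarith
  · by_contra hcon
    push Not at hcon
    nlinarith

theorem limit_smooth {a b : ℝ} {f : ℕ → ℝ → ℝ} {g : ℝ → ℝ} (C : ℕ → ℝ)
    (hf : ∀ N, ContDiffOn ℝ ∞ (f N) (Ioo a b))
    (hb : ∀ N j, ∀ x ∈ Ioo a b, |iteratedDeriv j (f N) x| ≤ C j)
    (hl : ∀ x ∈ Ioo a b, Tendsto (fun N => f N x) atTop (𝓝 (g x))) :
    ContDiffOn ℝ ∞ g (Ioo a b) := by
  have hder : ∀ j N, ∀ x ∈ Ioo a b,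
      HasDerivAt (iteratedDeriv j (f N)) (iteratedDeriv (j + 1) (f N) x) x := by
    intro j N x hx
    have h1 : DifferentiableOn ℝ (iteratedDerivWithin j (f N) (Ioo a b)) (Ioo a b) :=
      (hf N).differentiableOn_iteratedDerivWithin (by exact_mod_cast WithTop.coe_lt_top _)
        (isOpen_Ioo.uniqueDiffOn)
    have h2 : DifferentiableAt ℝ (iteratedDerivWithin j (f N) (Ioo a b)) x :=
      (h1 x hx).differentiableAt (isOpen_Ioo.mem_nhds hx)
    have h3 : iteratedDerivWithin j (f N) (Ioo a b) =ᶠ[𝓝 x] iteratedDeriv j (f N) := by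
      filter_upwards [isOpen_Ioo.mem_nhds hx] with y hy
      exact iteratedDerivWithin_of_isOpen isOpen_Ioo hy
    have h4 : DifferentiableAt ℝ (iteratedDeriv j (f N)) x := h3.differentiableAt_iff.1 h2
    rw [iteratedDeriv_succ]
    exact h4.hasDerivAt
  -- pointwise limits
  have hlim : ∀ j, ∀ x ∈ Ioo a b, ∃ l, Tendsto (fun N => iteratedDeriv j (f N) x) atTop (𝓝 l) := by
    intro j
    induction j with
    | zero =>
      intro x hx
      refine ⟨g x, ?_⟩
      simpa [iteratedDeriv_zero] using hl x hx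
    | succ j ih =>
      intro x hx
      exact LL_cauchy (u := fun N => iteratedDeriv j (f N))
        (u' := fun N => iteratedDeriv (j + 1) (f N)) (u'' := fun N => iteratedDeriv (j + 2) (f N))
        (C := C (j + 2)) (fun N => hder j N) (fun N => hder (j + 1) N)
        (fun N => hb N (j + 2)) ih hx
  choose! G hG using hlim
  have hG0 : ∀ x ∈ Ioo a b, G 0 x = g x := by
    intro x hx
    have h1 := hG 0 x hx
    simp only [iteratedDeriv_zero] at h1
    exact tendsto_nhds_unique h1 (hl x hx)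
  have hGd : ∀ j, ∀ x ∈ Ioo a b, HasDerivAt (G j) (G (j + 1) x) x := by
    intro j x hx
    have hbound : ∀ y ∈ Ioo a b, |G j y - G j x - (y - x) * G (j + 1) x| ≤
        C (j + 2) * (y - x) ^ 2 := by
      intro y hy
      have h1 : Tendsto (fun N => |iteratedDeriv j (f N) y - iteratedDeriv j (f N) x -
          (y - x) * iteratedDeriv (j + 1) (f N) x|) atTop
          (𝓝 |G j y - G j x - (y - x) * G (j + 1) x|) :=
        (((hG j y hy).sub (hG j x hx)).sub ((hG (j + 1) x hx).const_mul (y - x))).abs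
      refine le_of_tendsto' h1 (fun N => ?_)
      exact LL_taylor (hder j N) (hder (j + 1) N) (hb N (j + 2)) hx hy
    rw [hasDerivAt_iff_isLittleO]
    have hO : (fun y => G j y - G j x - (y - x) • G (j + 1) x) =O[𝓝 x]
        (fun y => (y - x) ^ 2) := by
      refine Asymptotics.IsBigO.of_bound (C (j + 2)) ?_
      filter_upwards [isOpen_Ioo.mem_nhds hx] with y hy
      rw [Real.norm_eq_abs, Real.norm_eq_abs, abs_of_nonneg (sq_nonneg (y - x)), smul_eq_mul]
      exact hbound y hy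
    refine hO.trans_isLittleO ?_
    have h2 : (fun y : ℝ => (y - x) ^ 2) =o[𝓝 x] (fun y => (y - x) ^ 1) := by
      have := (Asymptotics.isLittleO_pow_pow (𝕜 := ℝ) (m := 1) (n := 2) (by norm_num))
      have h3 : Tendsto (fun y : ℝ => y - x) (𝓝 x) (𝓝 0) := by
        have : Tendsto (fun y : ℝ => y - x) (𝓝 x) (𝓝 (x - x)) :=
          (continuous_id.sub continuous_const).tendsto x
        simpa using this
      exact this.comp_tendsto h3
    simpa using h2
  have hfin : ∀ n : ℕ, ∀ j, ContDiffOn ℝ n (G j) (Ioo a b) := by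
    intro n
    induction n with
    | zero =>
      intro j
      rw [Nat.cast_zero, contDiffOn_zero]
      exact fun x hx => (hGd j x hx).continuousAt.continuousWithinAt
    | succ n ih =>
      intro j
      rw [Nat.cast_succ, contDiffOn_succ_iff_deriv_of_isOpen isOpen_Ioo]
      refine ⟨fun x hx => (hGd j x hx).differentiableAt.differentiableWithinAt, ?_, ?_⟩
      · intro h; simp at h
      · exact (ih (j + 1)).congr fun x hx => (hGd j x hx).deriv
  have hfin' : ContDiffOn ℝ ∞ (G 0) (Ioo a b) := contDiffOn_infty.2 fun n => hfin n 0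
  exact hfin'.congr fun x hx => (hG0 x hx).symm

end TM
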