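import Pool.Agent.Helper55.TM.Basic

/-!
# MP_fc8395_an: module PS, the parametrisation `Psi`
-/

set_option autoImplicit false

open scoped ContDiff Topology
open Filter Set

namespace TM

lemma PS_sin_pos {ζ : ℝ} (h0 : 0 < ζ) (h1 : ζ < Real.pi) : 0 < Real.sin ζ :=
  Real.sin_pos_of_pos_of_lt_pi h0 h1

lemma PS_arg_pos (e : ℝ) {ζ : ℝ} (_ : Real.sin ζ ≠ 0) : 0 < 1 + e ^ 2 / Real.sin ζ ^ 2 := by
  have : 0 ≤ e ^ 2 / Real.sin ζ ^ 2 := by positivity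
  linarith

lemma PS_Amp_pos (e : ℝ) {ζ : ℝ} (h : Real.sin ζ ≠ 0) : 0 < Amp e ζ :=
  Real.sqrt_pos.2 (PS_arg_pos e h)

lemma PS_Amp_sq (e : ℝ) {ζ : ℝ} (h : Real.sin ζ ≠ 0) :
    Amp e ζ ^ 2 * Real.sin ζ ^ 2 = Real.sin ζ ^ 2 + e ^ 2 := by
  rw [Amp, Real.sq_sqrt (PS_arg_pos e h).le]
  field_simp

lemma PS_D (e ζ τ : ℝ) : D (Psi e ζ τ) = Amp e ζ * Real.sin τ * Real.sin ζ := by
  simp only [D, Psi, Real.cos_add]
  ring

lemma PS_yxz (e ζ τ : ℝ) : (Psi e ζ τ).2.1 - (Psi e ζ τ).1 * (Psi e ζ τ).2.2 =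
    Amp e ζ * Real.sin ζ * Real.sin (τ + ζ) := by
  simp only [Psi, Real.cos_add, Real.sin_add]
  have := Real.sin_sq_add_cos_sq ζ
  linear_combination (-(Amp e ζ * Real.cos τ)) * this

theorem Psi_mem {e : ℝ} {q : ℝ × ℝ} (hq : q ∈ Dom) : Psi e q.1 q.2 ∈ Surf e := by
  have hs := (PS_sin_pos hq.1 hq.2).ne'
  have hA := PS_Amp_sq e hs
  show FV _ = _
  simp only [FV, Psi, Real.cos_add]
  have h1 := Real.sin_sq_add_cos_sq q.1
  have h2 := Real.sin_sq_add_cos_sq q.2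
  set A := Amp e q.1
  set s := Real.sin q.1
  set c := Real.cos q.1
  set s' := Real.sin q.2
  set c' := Real.cos q.2
  linear_combination hA + h1 + A ^ 2 * s ^ 2 * h2 - A ^ 2 * c' ^ 2 * h1

lemma PS_angle {u v : ℝ} (h : u ^ 2 + v ^ 2 = 1) :
    ∃ τ : ℝ, u = Real.cos τ ∧ v = Real.sin τ := by
  have h1 : -1 ≤ u := by nlinarith [sq_nonneg v]
  have h2 : u ≤ 1 := by nlinarith [sq_nonneg v]
  rcases le_or_gt 0 v with hv | hv
  · refine ⟨Real.arccos u, (Real.cos_arccos h1 h2).symm, ?_⟩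
    rw [Real.sin_arccos, show 1 - u ^ 2 = v ^ 2 by linarith, Real.sqrt_sq hv]
  · refine ⟨-Real.arccos u, ?_, ?_⟩
    · rw [Real.cos_neg, Real.cos_arccos h1 h2]
    · rw [Real.sin_neg, Real.sin_arccos, show 1 - u ^ 2 = (-v) ^ 2 by linarith,
        Real.sqrt_sq (by linarith), neg_neg]

theorem Psi_surj {e : ℝ} {p : Pt} (hp : p ∈ Surf e) (hz : |p.2.2| < 1) :
    ∃ q ∈ Dom, Psi e q.1 q.2 = p := by
  obtain ⟨x, y, z⟩ := p
  have hz' := abs_lt.1 hz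
  simp only at hz'
  have hFV : x ^ 2 + y ^ 2 + z ^ 2 - 2 * x * y * z = 1 + e ^ 2 := hp
  set ζ := Real.arccos z with hζ
  have hcz : Real.cos ζ = z := Real.cos_arccos hz'.1.le hz'.2.le
  have hz0 : 0 < ζ := Real.arccos_pos.2 hz'.2
  have hzp : ζ < Real.pi := by
    rcases lt_or_eq_of_le (Real.arccos_le_pi z) with h | h
    · exact h
    · have : Real.cos ζ = -1 := by rw [hζ, h, Real.cos_pi]
      rw [hcz] at this
      linarith [hz'.1]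
  have hs := PS_sin_pos hz0 hzp
  have hA := PS_Amp_sq e hs.ne'
  have hAp := PS_Amp_pos e hs.ne'
  have h1 := Real.sin_sq_add_cos_sq ζ
  rw [hcz] at h1
  obtain ⟨τ, h2, h3⟩ := PS_angle (u := y / Amp e ζ)
    (v := (y * z - x) / (Real.sin ζ * Amp e ζ)) (by
      have : Amp e ζ ≠ 0 := hAp.ne'
      have : Real.sin ζ ≠ 0 := hs.ne'
      field_simp
      linear_combination hFV + (y ^ 2 - 1) * h1 - hA)
  have h4 : Amp e ζ * Real.cos τ = y := by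
    rw [← h2]; field_simp
  have h5 : Amp e ζ * Real.sin τ * Real.sin ζ = y * z - x := by
    rw [← h3]
    have : Real.sin ζ ≠ 0 := hs.ne'
    field_simp
  refine ⟨(ζ, τ), ⟨hz0, hzp⟩, ?_⟩
  simp only [Psi, Prod.mk.injEq]
  refine ⟨?_, h4, hcz⟩
  rw [Real.cos_add, hcz]
  linear_combination z * h4 - h5

lemma PS_contDiffOn_Amp (e : ℝ) : ContDiffOn ℝ ∞ (fun q : ℝ × ℝ => Amp e q.1) Dom := by
  unfold Amp
  refine ContDiffOn.sqrt ?_ ?_
  · refine contDiffOn_const.add (contDiffOn_const.div ?_ ?_)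
    · exact ((Real.contDiff_sin.comp contDiff_fst).pow 2).contDiffOn
    · intro q hq
      exact pow_ne_zero _ (PS_sin_pos hq.1 hq.2).ne'
  · intro q hq
    exact (PS_arg_pos e (PS_sin_pos hq.1 hq.2).ne').ne'

theorem contDiffOn_Psi (e : ℝ) : ContDiffOn ℝ ∞ (fun q : ℝ × ℝ => Psi e q.1 q.2) Dom := by
  unfold Psi
  have hA := PS_contDiffOn_Amp e
  refine ContDiffOn.prodMk ?_ (ContDiffOn.prodMk ?_ ?_)
  · exact hA.mul (Real.contDiff_cos.comp (contDiff_snd.add contDiff_fst)).contDiffOn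
  · exact hA.mul (Real.contDiff_cos.comp contDiff_snd).contDiffOn
  · exact (Real.contDiff_cos.comp contDiff_fst).contDiffOn

lemma PS_contDiff_U : ContDiff ℝ ∞ U := by
  unfold U
  fun_prop

lemma PS_contDiff_P : ContDiff ℝ ∞ P := by
  unfold P
  fun_prop

lemma PS_contDiff_Uit (j : ℕ) : ContDiff ℝ ∞ (U^[j]) := by
  induction j with
  | zero => exact contDiff_id
  | succ j ih => rw [Function.iterate_succ']; exact PS_contDiff_U.comp ih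

lemma PS_contDiff_orb (k : ℕ → ℕ) (n : ℕ) : ContDiff ℝ ∞ (orb k n) := by
  induction n with
  | zero => exact contDiff_id
  | succ n ih => exact PS_contDiff_P.comp ((PS_contDiff_Uit (k n)).comp ih)

theorem contDiffOn_Ft (e : ℝ) (k : ℕ → ℕ) (n j : ℕ) : ContDiffOn ℝ ∞ (Ft e k n j) Dom := by
  have h1 : ContDiff ℝ ∞ (fun p : Pt => (U^[j] (orb k n p)).2.2) :=
    contDiff_snd.comp (contDiff_snd.comp ((PS_contDiff_Uit j).comp (PS_contDiff_orb k n)))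
  exact h1.comp_contDiffOn (contDiffOn_Psi e)

theorem contDiffOn_F (e : ℝ) (k : ℕ → ℕ) (n : ℕ) : ContDiffOn ℝ ∞ (F e k n) Dom := by
  have h1 : ContDiff ℝ ∞ (fun p : Pt => (orb k n p).2.1) :=
    contDiff_fst.comp (contDiff_snd.comp (PS_contDiff_orb k n))
  exact h1.comp_contDiffOn (contDiffOn_Psi e)

lemma PS_hasDerivAt_tau (e ζ τ : ℝ) : HasDerivAt (fun t => Psi e ζ t)
    (-(Amp e ζ * Real.sin (τ + ζ)), -(Amp e ζ * Real.sin τ), 0) τ := by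
  unfold Psi
  have h1 : HasDerivAt (fun t => Amp e ζ * Real.cos (t + ζ)) (-(Amp e ζ * Real.sin (τ + ζ))) τ := by
    have e1 : HasDerivAt (fun t : ℝ => t + ζ) 1 τ := (hasDerivAt_id τ).add_const ζ
    have e2 := ((Real.hasDerivAt_cos (τ + ζ)).comp τ e1).const_mul (Amp e ζ)
    refine e2.congr_deriv ?_
    ring
  have h2 : HasDerivAt (fun t => Amp e ζ * Real.cos t) (-(Amp e ζ * Real.sin τ)) τ := by
    have e2 := ((Real.hasDerivAt_cos τ)).const_mul (Amp e ζ)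
    refine e2.congr_deriv ?_
    ring
  exact h1.prodMk (h2.prodMk (hasDerivAt_const τ (Real.cos ζ)))

lemma PS_tau_ne {e ζ : ℝ} (h0 : 0 < ζ) (h1 : ζ < Real.pi) (τ : ℝ) :
    ((-(Amp e ζ * Real.sin (τ + ζ)), -(Amp e ζ * Real.sin τ), 0) : Pt) ≠ 0 := by
  intro h
  have hs := PS_sin_pos h0 h1
  have hA := PS_Amp_pos e hs.ne'
  simp only [Prod.mk_eq_zero, neg_eq_zero, mul_eq_zero, hA.ne', false_or, and_true] at h
  obtain ⟨h2, h3⟩ := h
  rw [Real.sin_add, h3, zero_mul, zero_add, mul_eq_zero, or_iff_left hs.ne'] at h2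
  have := Real.sin_sq_add_cos_sq τ
  rw [h2, h3] at this
  norm_num at this

theorem Psi_tangent {e ζ : ℝ} (h0 : 0 < ζ) (h1 : ζ < Real.pi) (τ : ℝ) :
    ∃ v : Pt, HasDerivAt (fun t => Psi e ζ t) v τ ∧ v.2.2 = 0 ∧ v ≠ 0 ∧ Tan e (Psi e ζ τ, v) := by
  refine ⟨_, PS_hasDerivAt_tau e ζ τ, rfl, PS_tau_ne h0 h1 τ,
    Psi_mem (q := (ζ, τ)) ⟨h0, h1⟩, ?_⟩
  have hD := PS_D e ζ τ
  have hY := PS_yxz e ζ τ
  simp only [dFV]
  have hD' : (Psi e ζ τ).1 - (Psi e ζ τ).2.1 * (Psi e ζ τ).2.2 =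
      -(Amp e ζ * Real.sin τ * Real.sin ζ) := by
    rw [← hD]; unfold D; ring
  rw [hD', hY]
  ring

lemma PS_isOpen_Dom : IsOpen Dom := by
  have h1 : IsOpen {q : ℝ × ℝ | 0 < q.1} := isOpen_lt continuous_const continuous_fst
  have h2 : IsOpen {q : ℝ × ℝ | q.1 < Real.pi} := isOpen_lt continuous_fst continuous_const
  exact h1.inter h2

lemma PS_diffAt {e : ℝ} {q : ℝ × ℝ} (hq : q ∈ Dom) :
    DifferentiableAt ℝ (fun q : ℝ × ℝ => Psi e q.1 q.2) q :=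
  ((contDiffOn_Psi e).contDiffAt (PS_isOpen_Dom.mem_nhds hq)).differentiableAt (by simp)

lemma PS_fderiv_tau {e : ℝ} {q : ℝ × ℝ} (hq : q ∈ Dom) :
    fderiv ℝ (fun q : ℝ × ℝ => Psi e q.1 q.2) q (0, 1) =
      (-(Amp e q.1 * Real.sin (q.2 + q.1)), -(Amp e q.1 * Real.sin q.2), 0) := by
  have h1 := (PS_diffAt (e := e) hq).hasFDerivAt
  have h2 : HasDerivAt (fun t : ℝ => ((q.1, t) : ℝ × ℝ)) (0, 1) q.2 :=
    (hasDerivAt_const q.2 q.1).prodMk (hasDerivAt_id q.2)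
  have h3 : HasDerivAt (fun t : ℝ => Psi e q.1 t)
      (fderiv ℝ (fun q : ℝ × ℝ => Psi e q.1 q.2) q (0, 1)) q.2 :=
    HasFDerivAt.comp_hasDerivAt (f := fun t : ℝ => ((q.1, t) : ℝ × ℝ)) q.2 h1 h2
  exact h3.unique (PS_hasDerivAt_tau e q.1 q.2)

lemma PS_fderiv_z {e : ℝ} {q : ℝ × ℝ} (hq : q ∈ Dom) (w : ℝ × ℝ) :
    (fderiv ℝ (fun q : ℝ × ℝ => Psi e q.1 q.2) q w).2.2 = -Real.sin q.1 * w.1 := by
  have h1 := (PS_diffAt (e := e) hq).hasFDerivAt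
  have h2 : HasFDerivAt (fun q : ℝ × ℝ => (Psi e q.1 q.2).2.2)
      ((ContinuousLinearMap.snd ℝ ℝ ℝ).comp ((ContinuousLinearMap.snd ℝ ℝ (ℝ × ℝ)).comp
        (fderiv ℝ (fun q : ℝ × ℝ => Psi e q.1 q.2) q))) q := h1.snd.snd
  have h3 : HasFDerivAt (fun q : ℝ × ℝ => Real.cos q.1)
      (-Real.sin q.1 • (ContinuousLinearMap.fst ℝ ℝ ℝ)) q :=
    (Real.hasDerivAt_cos q.1).comp_hasFDerivAt q hasFDerivAt_fst
  have h4 := h2.unique h3
  have h5 := congrArg (fun L : (ℝ × ℝ) →L[ℝ] ℝ => L w) h4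
  simpa using h5

theorem Psi_fderiv_inj {e : ℝ} {q : ℝ × ℝ} (hq : q ∈ Dom) :
    Function.Injective (fderiv ℝ (fun q : ℝ × ℝ => Psi e q.1 q.2) q) := by
  rw [injective_iff_map_eq_zero]
  intro w hw
  have hs := PS_sin_pos hq.1 hq.2
  have h1 := PS_fderiv_z (e := e) hq w
  rw [hw] at h1
  have h2 : w.1 = 0 := by
    have : -Real.sin q.1 * w.1 = 0 := by rw [← h1]; rfl
    rcases mul_eq_zero.1 this with h | h
    · exact absurd (neg_eq_zero.1 h) hs.ne'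
    · exact h
  have h3 : w = w.2 • ((0, 1) : ℝ × ℝ) := by
    ext
    · simp [h2]
    · simp
  rw [h3, map_smul, PS_fderiv_tau hq] at hw
  rcases smul_eq_zero.1 hw with h | h
  · rw [h3, h, zero_smul]
  · exact absurd h (PS_tau_ne hq.1 hq.2 q.2)

/-! ### the area form -/

/-- the three minors -/
def PSInv (ε : ℝ) (p v w : Pt) : Prop :=
  v.2.2 * w.2.1 - v.2.1 * w.2.2 = ε * (p.2.1 * p.2.2 - p.1) ∧
  v.2.2 * w.1 - v.1 * w.2.2 = ε * (p.2.1 - p.1 * p.2.2) ∧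
  v.1 * w.2.1 - v.2.1 * w.1 = ε * (p.2.2 - p.1 * p.2.1)

lemma PSInv_U {ε : ℝ} {p v w : Pt} (h : PSInv ε p v w) :
    PSInv ε (U p) (dU p v) (dU p w) := by
  obtain ⟨h1, h2, h3⟩ := h
  refine ⟨?_, ?_, ?_⟩
  · simp only [U, dU]
    linear_combination h3
  · simp only [U, dU]
    linear_combination h2 + 2 * p.1 * h3
  · simp only [U, dU]
    linear_combination 2 * p.2.1 * h3 - h1

lemma PSInv_P {ε : ℝ} {p v w : Pt} (h : PSInv ε p v w) : PSInv (-ε) (P p) (P v) (P w) := by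
  obtain ⟨h1, h2, h3⟩ := h
  refine ⟨?_, ?_, ?_⟩
  · simp only [P]
    linear_combination -h1
  · simp only [P]
    linear_combination -h3
  · simp only [P]
    linear_combination -h2

lemma PS_hasFDerivAt_U {G : ℝ × ℝ → Pt} {L : (ℝ × ℝ) →L[ℝ] Pt} {q : ℝ × ℝ}
    (h : HasFDerivAt G L q) : ∃ L' : (ℝ × ℝ) →L[ℝ] Pt,
      HasFDerivAt (fun q => U (G q)) L' q ∧ ∀ u, L' u = dU (G q) (L u) := by
  have h1 := h.fst
  have h2 := h.snd.fst
  have h3 := h.snd.snd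
  have h4 := ((h1.const_mul 2).mul h2).sub h3
  refine ⟨_, h4.prodMk (h2.prodMk h1), fun u => ?_⟩
  simp only [dU, ContinuousLinearMap.prod_apply, Prod.mk.injEq]
  refine ⟨?_, rfl, rfl⟩
  simp
  ring

lemma PS_hasFDerivAt_P {G : ℝ × ℝ → Pt} {L : (ℝ × ℝ) →L[ℝ] Pt} {q : ℝ × ℝ}
    (h : HasFDerivAt G L q) : ∃ L' : (ℝ × ℝ) →L[ℝ] Pt,
      HasFDerivAt (fun q => P (G q)) L' q ∧ ∀ u, L' u = P (L u) := by
  have h1 := h.fst
  have h2 := h.snd.fst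
  have h3 := h.snd.snd
  exact ⟨_, h1.prodMk (h3.prodMk h2), fun u => rfl⟩

lemma PS_iter {k : ℕ → ℕ} {e : ℝ} {n : ℕ} {q : ℝ × ℝ}
    (h : ∃ L : (ℝ × ℝ) →L[ℝ] Pt, HasFDerivAt (fun q : ℝ × ℝ => orb k n (Psi e q.1 q.2)) L q ∧
      PSInv ((-1) ^ n) (orb k n (Psi e q.1 q.2)) (L (1, 0)) (L (0, 1))) (j : ℕ) :
    ∃ L : (ℝ × ℝ) →L[ℝ] Pt, HasFDerivAt (fun q : ℝ × ℝ => U^[j] (orb k n (Psi e q.1 q.2))) L q ∧
      PSInv ((-1) ^ n) (U^[j] (orb k n (Psi e q.1 q.2))) (L (1, 0)) (L (0, 1)) := by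
  induction j with
  | zero => exact h
  | succ j ih =>
    obtain ⟨L, h1, h2⟩ := ih
    obtain ⟨L', h3, h4⟩ := PS_hasFDerivAt_U h1
    refine ⟨L', ?_, ?_⟩
    · simp only [Function.iterate_succ_apply']
      exact h3
    · rw [Function.iterate_succ_apply', h4, h4]
      exact PSInv_U h2

lemma PS_base {e : ℝ} {q : ℝ × ℝ} (hq : q ∈ Dom) :
    PSInv 1 (Psi e q.1 q.2) (fderiv ℝ (fun q : ℝ × ℝ => Psi e q.1 q.2) q (1, 0))
      (fderiv ℝ (fun q : ℝ × ℝ => Psi e q.1 q.2) q (0, 1)) := by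
  have hs := PS_sin_pos hq.1 hq.2
  have hz := PS_fderiv_z (e := e) hq (1, 0)
  -- the derivative in `ζ`
  have h1 := (PS_diffAt (e := e) hq).hasFDerivAt
  have h2 : HasDerivAt (fun t : ℝ => ((t, q.2) : ℝ × ℝ)) (1, 0) q.1 :=
    (hasDerivAt_id q.1).prodMk (hasDerivAt_const q.1 q.2)
  have h3 : HasDerivAt (fun t : ℝ => Psi e t q.2)
      (fderiv ℝ (fun q : ℝ × ℝ => Psi e q.1 q.2) q (1, 0)) q.1 :=
    HasFDerivAt.comp_hasDerivAt (f := fun t : ℝ => ((t, q.2) : ℝ × ℝ)) q.1 h1 h2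
  -- the derivative of the amplitude
  have hAd : HasDerivAt (fun t : ℝ => Amp e t)
      (-(e ^ 2 * Real.cos q.1 / Real.sin q.1 ^ 3) / Amp e q.1) q.1 := by
    have e1 : HasDerivAt (fun t : ℝ => 1 + e ^ 2 / Real.sin t ^ 2)
        (-(2 * e ^ 2 * Real.cos q.1 / Real.sin q.1 ^ 3)) q.1 := by
      have e2 := ((((Real.hasDerivAt_sin q.1).pow 2).inv
        (pow_ne_zero _ hs.ne')).const_mul (e ^ 2)).const_add 1
      have e3 : (fun t : ℝ => 1 + e ^ 2 / Real.sin t ^ 2) =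
          fun t : ℝ => 1 + e ^ 2 * (Real.sin ^ 2)⁻¹ t := by
        funext t
        simp [div_eq_mul_inv]
      rw [e3]
      refine e2.congr_deriv ?_
      simp
      field_simp
    have e4 := e1.sqrt (PS_arg_pos e hs.ne').ne'
    refine e4.congr_deriv ?_
    have : Amp e q.1 ≠ 0 := (PS_Amp_pos e hs.ne').ne'
    unfold Amp at this ⊢
    have := hs.ne'
    field_simp
  have h4 : HasDerivAt (fun t : ℝ => Psi e t q.2)
      (-(e ^ 2 * Real.cos q.1 / Real.sin q.1 ^ 3) / Amp e q.1 * Real.cos (q.2 + q.1) +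
        Amp e q.1 * (-Real.sin (q.2 + q.1)),
       -(e ^ 2 * Real.cos q.1 / Real.sin q.1 ^ 3) / Amp e q.1 * Real.cos q.2,
       -Real.sin q.1) q.1 := by
    unfold Psi
    have e1 : HasDerivAt (fun t : ℝ => q.2 + t) 1 q.1 := (hasDerivAt_id q.1).const_add q.2
    have e2 := (Real.hasDerivAt_cos (q.2 + q.1)).comp q.1 e1
    rw [mul_one] at e2
    exact (hAd.mul e2).prodMk ((hAd.mul_const (Real.cos q.2)).prodMk (Real.hasDerivAt_cos q.1))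
  rw [h3.unique h4, PS_fderiv_tau hq]
  have hA := PS_Amp_sq e hs.ne'
  have hAp := (PS_Amp_pos e hs.ne').ne'
  have hD := PS_D e q.1 q.2
  have hY := PS_yxz e q.1 q.2
  refine ⟨?_, ?_, ?_⟩
  · unfold D at hD
    rw [hD]
    ring
  · rw [hY]
    ring
  · have hsc := Real.sin_sq_add_cos_sq q.1
    have hsc2 := Real.sin_sq_add_cos_sq q.2
    simp only [Psi, Real.cos_add, Real.sin_add]
    have hs' := hs.ne'
    set A := Amp e q.1
    set s := Real.sin q.1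
    set c := Real.cos q.1
    set s' := Real.sin q.2
    set c' := Real.cos q.2
    have key : A * (-(e ^ 2 * c / s ^ 3) / A) * s = c - A ^ 2 * c := by
      have : e ^ 2 = A ^ 2 * s ^ 2 - s ^ 2 := by linarith
      rw [this]
      field_simp
      ring
    linear_combination key * (s' ^ 2 + c' ^ 2) + c * hsc2

lemma PS_inv {e : ℝ} (k : ℕ → ℕ) (n : ℕ) {q : ℝ × ℝ} (hq : q ∈ Dom) :
    ∃ L : (ℝ × ℝ) →L[ℝ] Pt, HasFDerivAt (fun q : ℝ × ℝ => orb k n (Psi e q.1 q.2)) L q ∧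
      PSInv ((-1) ^ n) (orb k n (Psi e q.1 q.2)) (L (1, 0)) (L (0, 1)) := by
  induction n with
  | zero =>
    refine ⟨_, (PS_diffAt (e := e) hq).hasFDerivAt, ?_⟩
    rw [pow_zero]
    exact PS_base hq
  | succ n ih =>
    obtain ⟨L, h1, h2⟩ := PS_iter ih (k n)
    obtain ⟨L', h3, h4⟩ := PS_hasFDerivAt_P h1
    refine ⟨L', h3, ?_⟩
    rw [h4, h4, pow_succ, mul_neg_one]
    exact PSInv_P h2

/-- Jacobian of `(z, y)` along a fan. -/
theorem jac_zy {e : ℝ} (k : ℕ → ℕ) (n j : ℕ) {q : ℝ × ℝ} (hq : q ∈ Dom) :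
    dz (Ft e k n j) q * dt (F e k n) q - dz (F e k n) q * dt (Ft e k n j) q
      = (-1) ^ n * D (U^[j] (orb k n (Psi e q.1 q.2))) := by
  obtain ⟨L, h1, h2, -, -⟩ := PS_iter (PS_inv (e := e) k n hq) j
  obtain ⟨L1, hFt, hL1⟩ : ∃ L' : (ℝ × ℝ) →L[ℝ] ℝ, HasFDerivAt (Ft e k n j) L' q ∧
      ∀ u, L' u = (L u).2.2 := ⟨_, h1.snd.snd, fun u => rfl⟩
  obtain ⟨L2, hF, hL2⟩ : ∃ L' : (ℝ × ℝ) →L[ℝ] ℝ, HasFDerivAt (F e k n) L' q ∧
      ∀ u, L' u = (L u).2.1 := by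
    have : F e k n = fun q : ℝ × ℝ => (U^[j] (orb k n (Psi e q.1 q.2))).2.1 := by
      funext q
      exact (U_iter_y _ _).symm
    rw [this]
    exact ⟨_, h1.snd.fst, fun u => rfl⟩
  simp only [dz, dt, hFt.fderiv, hF.fderiv, hL1, hL2]
  exact h2

/-- Jacobian of `(z, x)` along a fan. -/
theorem jac_zx {e : ℝ} (k : ℕ → ℕ) (n j : ℕ) {q : ℝ × ℝ} (hq : q ∈ Dom) :
    dz (Ft e k n j) q * dt (Ft e k n (j + 1)) q - dz (Ft e k n (j + 1)) q * dt (Ft e k n j) q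
      = (-1) ^ n * (F e k n q - Ft e k n (j + 1) q * Ft e k n j q) := by
  obtain ⟨L, h1, -, h2, -⟩ := PS_iter (PS_inv (e := e) k n hq) j
  obtain ⟨L1, hFt, hL1⟩ : ∃ L' : (ℝ × ℝ) →L[ℝ] ℝ, HasFDerivAt (Ft e k n j) L' q ∧
      ∀ u, L' u = (L u).2.2 := ⟨_, h1.snd.snd, fun u => rfl⟩
  obtain ⟨L2, hF1, hL2⟩ : ∃ L' : (ℝ × ℝ) →L[ℝ] ℝ, HasFDerivAt (Ft e k n (j + 1)) L' q ∧
      ∀ u, L' u = (L u).1 := by
    have : Ft e k n (j + 1) = fun q : ℝ × ℝ => (U^[j] (orb k n (Psi e q.1 q.2))).1 := by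
      funext q
      exact (U_iter_x _ _).symm
    rw [this]
    exact ⟨_, h1.fst, fun u => rfl⟩
  have hy : F e k n q = (U^[j] (orb k n (Psi e q.1 q.2))).2.1 := (U_iter_y _ _).symm
  have hx : Ft e k n (j + 1) q = (U^[j] (orb k n (Psi e q.1 q.2))).1 := (U_iter_x _ _).symm
  simp only [dz, dt, hFt.fderiv, hF1.fderiv, hL1, hL2]
  rw [hy, hx]
  exact h2

end TM
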