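import Pool.Agent.Helper64.C3.Defs2

set_option autoImplicit false

open Metric Set Filter Topology Asymptotics

namespace Pool.Agent.Helper64.C3

namespace UF

lemma koebe_kst {q : ℝ} {χ w : ℂ} (h3 : 1 - q * χ * w ≠ 0)
    (h4 : 1 - q * (1 + χ) * w + χ * w ^ 2 ≠ 0) :
    koebe (kst q χ w) = w * (q - χ * w) * (1 - q * χ * w) / (1 - q * (1 + χ) * w + χ * w ^ 2) ^ 2 := by
  have h5 : 1 - w * (q - χ * w) / (1 - q * χ * w)
      = (1 - q * (1 + χ) * w + χ * w ^ 2) / (1 - q * χ * w) := by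
    rw [eq_div_iff h3, sub_mul, div_mul_cancel₀ _ h3]
    ring
  unfold koebe kst
  rw [h5]
  generalize 1 - q * χ * w = Q at h3 ⊢
  generalize 1 - q * (1 + χ) * w + χ * w ^ 2 = N at h4 ⊢
  field_simp

lemma alg (w χ q p A B N : ℂ) (hq : q ≠ 0) (hp : p ≠ 0) (hA : A ≠ 0) (hB : B ≠ 0) (hN : N ≠ 0)
    (eA : A = 1 - w) (eB : B = 1 - χ * w) (eN : N = 1 - q * (1 + χ) * w + χ * w ^ 2) :
    w / A ^ 2 / p - (w * (q - χ * w) * (1 - q * χ * w) / N ^ 2) / (q * p)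
      - (1 + χ) * ((1 - q) * p) * (2 * w ^ 2 / (p ^ 2 * A ^ 3 * B))
      = (1 - q) ^ 2 * (p⁻¹ * (-(w * B ^ 2 * ((1 + χ) * w) ^ 2 *
          (3 * (A * B) + 2 * (1 - q) * ((1 + χ) * w))) / ((A * B) ^ 3 * N ^ 2)
        + χ * w ^ 2 / (q * N ^ 2))) := by
  field_simp
  rw [eN, eA, eB]
  ring

lemma step_identity {q p : ℝ} {χ w : ℂ} (hq : (q : ℂ) ≠ 0) (hp : (p : ℂ) ≠ 0) (h1 : 1 - w ≠ 0)
    (h2 : 1 - χ * w ≠ 0) (h3 : 1 - q * χ * w ≠ 0)
    (h4 : 1 - q * (1 + χ) * w + χ * w ^ 2 ≠ 0) :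
    koebe w / p - koebe (kst q χ w) / (q * p) - (1 + χ) * ((1 - q) * p) * Phi p χ w
      = (1 - q) ^ 2 * ((p : ℂ)⁻¹ * (-(w * (1 - χ * w) ^ 2 * ((1 + χ) * w) ^ 2 *
          (3 * ((1 - w) * (1 - χ * w)) + 2 * (1 - q) * ((1 + χ) * w))) /
          (((1 - w) * (1 - χ * w)) ^ 3 * (1 - q * (1 + χ) * w + χ * w ^ 2) ^ 2)
        + χ * w ^ 2 / (q * (1 - q * (1 + χ) * w + χ * w ^ 2) ^ 2))) := by
  rw [koebe_kst h3 h4]
  exact alg w χ q p (1 - w) (1 - χ * w) _ hq hp h1 h2 h4 rfl rfl rfl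


lemma ndiv {a b : ℂ} {x y : ℝ} (ha : ‖a‖ ≤ x) (hy : 0 < y) (hb : y ≤ ‖b‖) : ‖a / b‖ ≤ x / y := by
  rw [norm_div]
  have hx : 0 ≤ x := (norm_nonneg _).trans ha
  gcongr

section bounds

variable {r : ℝ} {χ w : ℂ}

lemma one_sub_lower (hw : ‖w‖ ≤ r) : 1 - r ≤ ‖1 - w‖ := by
  have h := norm_sub_norm_le (1 : ℂ) w
  rw [norm_one] at h
  linarith

lemma norm_chi_mul (hχ : ‖χ‖ = 1) : ‖χ * w‖ = ‖w‖ := by rw [norm_mul, hχ, one_mul]

lemma norm_one_add_chi (hχ : ‖χ‖ = 1) : ‖1 + χ‖ ≤ 2 := by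
  have h := norm_add_le (1 : ℂ) χ
  rw [norm_one, hχ] at h
  linarith

lemma one_sub_upper (hw : ‖w‖ ≤ r) (hr1 : r < 1) : ‖1 - w‖ ≤ 2 := by
  have h := norm_sub_le (1 : ℂ) w
  rw [norm_one] at h
  linarith

lemma AB_lower (hr1 : r < 1) (hχ : ‖χ‖ = 1) (hw : ‖w‖ ≤ r) :
    (1 - r) ^ 2 ≤ ‖(1 - w) * (1 - χ * w)‖ := by
  have h1 := one_sub_lower hw
  have h2 : 1 - r ≤ ‖1 - χ * w‖ := one_sub_lower (by rw [norm_chi_mul hχ]; exact hw)
  rw [norm_mul, sq]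
  exact mul_le_mul h1 h2 (by linarith) (norm_nonneg _)

lemma N_eq (q : ℝ) (χ w : ℂ) : 1 - q * (1 + χ) * w + χ * w ^ 2
    = (1 - w) * (1 - χ * w) + (1 - q) * ((1 + χ) * w) := by ring

lemma norm_W (hr0 : 0 < r) (hr1 : r < 1) (hχ : ‖χ‖ = 1) (hw : ‖w‖ ≤ r) : ‖(1 + χ) * w‖ ≤ 2 := by
  rw [norm_mul]
  have h1 := norm_one_add_chi hχ
  have h2 : ‖w‖ ≤ 1 := by linarith
  calc ‖1 + χ‖ * ‖w‖ ≤ 2 * 1 := mul_le_mul h1 h2 (norm_nonneg _) (by norm_num)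
    _ = 2 := by norm_num

lemma norm_one_sub_q {q : ℝ} (hq1 : q ≤ 1) : ‖(1 : ℂ) - (q : ℂ)‖ = 1 - q := by
  have : (1 : ℂ) - (q : ℂ) = ((1 - q : ℝ) : ℂ) := by push_cast; ring
  rw [this, Complex.norm_real, Real.norm_eq_abs, abs_of_nonneg (by linarith)]

lemma N_lower {q : ℝ} (hr0 : 0 < r) (hr1 : r < 1) (hχ : ‖χ‖ = 1) (hw : ‖w‖ ≤ r)
    (hq : 1 - (1 - r) ^ 2 / 4 ≤ q) (hq1 : q ≤ 1) :
    (1 - r) ^ 2 / 2 ≤ ‖1 - q * (1 + χ) * w + χ * w ^ 2‖ := by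
  rw [N_eq]
  have h1 := AB_lower hr1 hχ hw
  have h2 : ‖(1 - (q : ℂ)) * ((1 + χ) * w)‖ ≤ (1 - q) * 2 := by
    rw [norm_mul, norm_one_sub_q hq1]
    exact mul_le_mul_of_nonneg_left (norm_W hr0 hr1 hχ hw) (by linarith)
  have h3 := norm_sub_le ((1 - w) * (1 - χ * w) + (1 - q) * ((1 + χ) * w))
    ((1 - (q : ℂ)) * ((1 + χ) * w))
  rw [add_sub_cancel_right] at h3
  linarith

lemma q_lower {q : ℝ} (hr0 : 0 < r) (hr1 : r < 1) (hq : 1 - (1 - r) ^ 2 / 4 ≤ q) : 1 / 2 ≤ q := by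
  nlinarith

end bounds

/-- the constant of the first order step -/
noncomputable def C1 (r pm : ℝ) : ℝ :=
  pm⁻¹ * (256 / (((1 - r) ^ 2) ^ 3 * ((1 - r) ^ 2 / 2) ^ 2) + 1 / (1 / 2 * ((1 - r) ^ 2 / 2) ^ 2))

lemma C1_pos {r pm : ℝ} (hr1 : r < 1) (hpm : 0 < pm) : 0 < C1 r pm := by
  have : 0 < 1 - r := by linarith
  unfold C1
  positivity

lemma step_first' {r pm : ℝ} (hr0 : 0 < r) (hr1 : r < 1) (hpm : 0 < pm) {q : ℝ}
    (hq : 1 - (1 - r) ^ 2 / 4 ≤ q) (hq1 : q ≤ 1) {χ w : ℂ} (hχ : ‖χ‖ = 1) (hw : ‖w‖ ≤ r) {p : ℝ}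
    (hp : pm ≤ p) :
    ‖koebe w / p - koebe (kst q χ w) / (q * p) - (1 + χ) * ((1 - q) * p) * Phi p χ w‖
        ≤ C1 r pm * (1 - q) ^ 2 := by
  have hr2 : 0 < 1 - r := by linarith
  have hqh := q_lower hr0 hr1 hq
  have hp0 : 0 < p := hpm.trans_le hp
  have hχw : ‖χ * w‖ ≤ r := by rw [norm_chi_mul hχ]; exact hw
  have hA := one_sub_lower hw
  have hB := one_sub_lower hχw
  have hN := N_lower hr0 hr1 hχ hw hq hq1
  have hAB := AB_lower hr1 hχ hw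
  have hA0 : 1 - w ≠ 0 := norm_pos_iff.mp (hr2.trans_le hA)
  have hB0 : 1 - χ * w ≠ 0 := norm_pos_iff.mp (hr2.trans_le hB)
  have hN0 : 1 - q * (1 + χ) * w + χ * w ^ 2 ≠ 0 :=
    norm_pos_iff.mp (lt_of_lt_of_le (by positivity) hN)
  have hQ0 : 1 - q * χ * w ≠ 0 := by
    have h1 : ‖(q : ℂ) * χ * w‖ ≤ r := by
      rw [mul_assoc, norm_mul, norm_chi_mul hχ, Complex.norm_real, Real.norm_eq_abs,
        abs_of_nonneg (by linarith)]
      nlinarith [norm_nonneg w]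
    exact norm_pos_iff.mp (hr2.trans_le (one_sub_lower h1))
  rw [step_identity (by exact_mod_cast (by linarith : q ≠ 0)) (by exact_mod_cast hp0.ne')
    hA0 hB0 hQ0 hN0, norm_mul, norm_pow, norm_one_sub_q hq1, mul_comm]
  refine mul_le_mul_of_nonneg_right ?_ (sq_nonneg _)
  rw [norm_mul, norm_inv, Complex.norm_real, Real.norm_eq_abs, abs_of_pos hp0, C1]
  refine mul_le_mul ?_ ?_ (norm_nonneg _) (by positivity)
  · exact inv_anti₀ hpm hp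
  · refine (norm_add_le _ _).trans (add_le_add ?_ ?_)
    · refine ndiv ?_ (by positivity) ?_
      · rw [norm_neg, norm_mul, norm_mul, norm_mul, norm_pow, norm_pow]
        have e1 : ‖w‖ ≤ 1 := by linarith
        have e2 : ‖1 - χ * w‖ ≤ 2 := one_sub_upper hχw hr1
        have e3 := norm_W hr0 hr1 hχ hw
        have e4 : ‖3 * ((1 - w) * (1 - χ * w)) + 2 * (1 - (q : ℂ)) * ((1 + χ) * w)‖ ≤ 16 := by
          refine (norm_add_le _ _).trans ?_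
          rw [norm_mul, norm_mul, norm_mul, norm_mul, norm_one_sub_q hq1]
          have e5 : ‖1 - w‖ ≤ 2 := one_sub_upper hw hr1
          have e6 : ‖(3 : ℂ)‖ = 3 := by simp
          have e7 : ‖(2 : ℂ)‖ = 2 := by simp
          rw [e6, e7]
          have e8 : ‖1 - w‖ * ‖1 - χ * w‖ ≤ 2 * 2 :=
            mul_le_mul e5 e2 (norm_nonneg _) (by norm_num)
          have e9 : (1 - q) * ‖(1 + χ) * w‖ ≤ 1 * 2 :=
            mul_le_mul (by linarith) e3 (norm_nonneg _) (by norm_num)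
          nlinarith
        calc ‖w‖ * ‖1 - χ * w‖ ^ 2 * ‖(1 + χ) * w‖ ^ 2 *
              ‖3 * ((1 - w) * (1 - χ * w)) + 2 * (1 - (q : ℂ)) * ((1 + χ) * w)‖
            ≤ 1 * 2 ^ 2 * 2 ^ 2 * 16 := by gcongr
          _ = 256 := by norm_num
      · rw [norm_mul, norm_pow, norm_pow]
        gcongr
    · refine ndiv ?_ (by positivity) ?_
      · rw [norm_mul, norm_pow, hχ, one_mul]
        have e1 : ‖w‖ ≤ 1 := by linarith
        exact pow_le_one₀ (norm_nonneg _) e1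
      · rw [norm_mul, norm_pow, Complex.norm_real, Real.norm_eq_abs, abs_of_pos (by linarith)]
        gcongr

end UF

/-- U-F1 (first order expansion of one step). -/
theorem step_first {r pm : ℝ} (hr0 : 0 < r) (hr1 : r < 1) (hpm : 0 < pm) (hpm1 : pm ≤ 1) :
    ∃ C δ₀ : ℝ, 0 < C ∧ 0 < δ₀ ∧ δ₀ < 1 ∧ ∀ q : ℝ, 1 - δ₀ ≤ q → q ≤ 1 → ∀ χ w : ℂ, ‖χ‖ = 1 →
      ‖w‖ ≤ r → ∀ p : ℝ, pm ≤ p → p ≤ 1 →
      ‖koebe w / p - koebe (kst q χ w) / (q * p) - (1 + χ) * ((1 - q) * p) * Phi p χ w‖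
        ≤ C * (1 - q) ^ 2 := by
  have hr2 : 0 < 1 - r := by linarith
  refine ⟨UF.C1 r pm, (1 - r) ^ 2 / 4, UF.C1_pos hr1 hpm, by positivity, by nlinarith, ?_⟩
  intro q hq hq1 χ w hχ hw p hp _
  exact UF.step_first' hr0 hr1 hpm hq hq1 hχ hw hp

namespace UF

/-! ### the square root -/

lemma inner_mem' {t : ℝ} (ht0 : 0 ≤ t) (ht1 : t ≤ 1) {z : ℂ} (hz : z ∈ ball (0 : ℂ) 1) :
    M6.inner t z ∈ Complex.slitPlane := by
  have h := M6.hp_re hz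
  rcases ht0.eq_or_lt with h0 | h0
  · rw [← h0]
    unfold M6.inner
    simp
  · rcases ht1.eq_or_lt with h1 | h1
    · rw [h1, Complex.mem_slitPlane_iff]
      by_cases him : (M6.hp z).im = 0
      · left
        have h2 : ((M6.hp z) ^ 2).re = (M6.hp z).re ^ 2 := by
          rw [sq, Complex.mul_re, him]; ring
        unfold M6.inner
        simp only [Complex.ofReal_one, sub_self, zero_add, one_mul, h2]
        positivity
      · right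
        have h2 : ((M6.hp z) ^ 2).im = 2 * (M6.hp z).re * (M6.hp z).im := by
          rw [sq, Complex.mul_im]; ring
        unfold M6.inner
        simp only [Complex.ofReal_one, sub_self, zero_add, one_mul, h2]
        exact mul_ne_zero (mul_ne_zero two_ne_zero h.ne') him
    · exact M6.inner_mem h0 h1 hz

lemma sqrt_re_pos {ζ : ℂ} (hζ : ζ ∈ Complex.slitPlane) : 0 < (ζ ^ ((2 : ℂ)⁻¹)).re := by
  have hne : ζ ≠ 0 := Complex.slitPlane_ne_zero hζ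
  have harg : Complex.arg ζ ≠ Real.pi := Complex.slitPlane_arg_ne_pi hζ
  rw [Complex.cpow_def_of_ne_zero hne, Complex.exp_re]
  apply mul_pos (Real.exp_pos _)
  apply Real.cos_pos_of_mem_Ioo
  have him : (Complex.log ζ * (2 : ℂ)⁻¹).im = Complex.arg ζ / 2 := by
    have : (Complex.log ζ * (2 : ℂ)⁻¹) = Complex.log ζ / (2 : ℝ) := by
      push_cast; ring
    rw [this, Complex.div_ofReal_im, Complex.log_im]
  rw [him]
  have h1 := Complex.neg_pi_lt_arg ζ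
  have h2 := lt_of_le_of_ne (Complex.arg_le_pi ζ) harg
  constructor <;> linarith

lemma inner_eq {t : ℝ} {w : ℂ} (hw : w ∈ ball (0 : ℂ) 1) :
    M6.inner t w = 1 + 4 * t * koebe w := by
  have h := M6.koebe_eq hw
  unfold M6.inner
  linear_combination (-(t : ℂ)) * h

lemma exists_root_lower {r : ℝ} (hr0 : 0 < r) (hr1 : r < 1) : ∃ c₀ : ℝ, 0 < c₀ ∧
    ∀ t : ℝ, 0 ≤ t → t ≤ 1 → ∀ w : ℂ, ‖w‖ ≤ r →
      c₀ ≤ ((1 + 4 * t * koebe w : ℂ) ^ ((2 : ℂ)⁻¹)).re := by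
  have hK : IsCompact (Icc (0 : ℝ) 1 ×ˢ closedBall (0 : ℂ) r) :=
    isCompact_Icc.prod (isCompact_closedBall 0 r)
  have hsub : ∀ x ∈ Icc (0 : ℝ) 1 ×ˢ closedBall (0 : ℂ) r, x.2 ∈ ball (0 : ℂ) 1 := by
    intro x hx
    exact closedBall_subset_ball hr1 hx.2
  have hcont : ContinuousOn (fun x : ℝ × ℂ => (M6.inner x.1 x.2 ^ ((2 : ℂ)⁻¹)).re)
      (Icc (0 : ℝ) 1 ×ˢ closedBall (0 : ℂ) r) := by
    apply Complex.continuous_re.comp_continuousOn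
    intro x hx
    have hx2 := hsub x hx
    have hmem := inner_mem' hx.1.1 hx.1.2 hx2
    have hc : ContinuousAt (fun x : ℝ × ℂ => M6.inner x.1 x.2) x := by
      unfold M6.inner M6.hp
      have h1 := M6.one_sub_ne hx2
      fun_prop (disch := exact h1)
    exact (hc.cpow continuousAt_const hmem).continuousWithinAt
  have hne : (Icc (0 : ℝ) 1 ×ˢ closedBall (0 : ℂ) r).Nonempty :=
    ⟨(0, 0), ⟨by simp, by simp [hr0.le]⟩⟩
  obtain ⟨x, hx, hmin⟩ := hK.exists_isMinOn hne hcont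
  refine ⟨_, sqrt_re_pos (inner_mem' hx.1.1 hx.1.2 (hsub x hx)), ?_⟩
  intro t ht0 ht1 w hw
  have hmem : ((t, w) : ℝ × ℂ) ∈ Icc (0 : ℝ) 1 ×ˢ closedBall (0 : ℂ) r :=
    ⟨⟨ht0, ht1⟩, by simpa using hw⟩
  have h := hmin hmem
  simp only [Set.mem_ofPred_eq] at h
  rw [inner_eq (hsub _ hmem)] at h
  exact h

lemma norm_kst {q : ℝ} (hq0 : 0 ≤ q) (hq1 : q ≤ 1) {χ w : ℂ} (hχ : ‖χ‖ = 1) (hw : ‖w‖ < 1) :
    ‖kst q χ w‖ ≤ ‖w‖ := by
  have hχw : ‖χ * w‖ < 1 := by rw [norm_chi_mul hχ]; exact hw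
  set u := χ * w with hu
  have h1 : ‖(q : ℂ) * u‖ < 1 := by
    rw [norm_mul, Complex.norm_real, Real.norm_eq_abs, abs_of_nonneg hq0]
    nlinarith [norm_nonneg u]
  have h2 : 0 < ‖1 - (q : ℂ) * u‖ := by
    have h3 := norm_sub_norm_le (1 : ℂ) ((q : ℂ) * u)
    rw [norm_one] at h3
    linarith
  have h4 : ‖(q : ℂ) - u‖ ≤ ‖1 - (q : ℂ) * u‖ := by
    rw [← sq_le_sq₀ (norm_nonneg _) (norm_nonneg _), ← Complex.normSq_eq_norm_sq,
      ← Complex.normSq_eq_norm_sq, Complex.normSq_apply, Complex.normSq_apply]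
    have h5 : u.re ^ 2 + u.im ^ 2 ≤ 1 := by
      have : Complex.normSq u ≤ 1 := by
        rw [Complex.normSq_eq_norm_sq]
        nlinarith [norm_nonneg u]
      rw [Complex.normSq_apply] at this
      nlinarith
    simp only [Complex.sub_re, Complex.sub_im, Complex.ofReal_re, Complex.ofReal_im,
      Complex.one_re, Complex.one_im, Complex.mul_re, Complex.mul_im]
    nlinarith [mul_nonneg (sub_nonneg.mpr h5) (sub_nonneg.mpr (by nlinarith : q ^ 2 ≤ 1))]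
  have h6 : kst q χ w = w * ((q - u) / (1 - q * u)) := by
    unfold kst
    rw [hu, mul_div_assoc, mul_assoc (q : ℂ) χ w]
  rw [h6, norm_mul, norm_div]
  have h7 : ‖(q : ℂ) - u‖ / ‖1 - (q : ℂ) * u‖ ≤ 1 := by
    rw [div_le_one h2]
    exact h4
  calc ‖w‖ * (‖(q : ℂ) - u‖ / ‖1 - (q : ℂ) * u‖) ≤ ‖w‖ * 1 := by gcongr
    _ = ‖w‖ := mul_one _

lemma norm_koebe {r : ℝ} (hr1 : r < 1) {w : ℂ} (hw : ‖w‖ ≤ r) :
    ‖koebe w‖ ≤ 1 / (1 - r) ^ 2 := by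
  have hr2 : 0 < 1 - r := by linarith
  unfold koebe
  refine ndiv (by linarith) (by positivity) ?_
  rw [norm_pow]
  have := one_sub_lower hw
  gcongr

lemma alg2 {R R' g g' v : ℂ} (hv : v ≠ 0) (hR : R ≠ 0) (hR' : R' ≠ 0) (hs : R + R' ≠ 0)
    (e1 : R ^ 2 = 1 + 4 * v * g) (e2 : R' ^ 2 = 1 + 4 * v * g') :
    2 * g ^ 2 / R - 2 * g' ^ 2 / R' - 4 * g * (1 + 3 * v * g) / R ^ 3 * (g - g')
      = (g - g') ^ 2 * (-2 / R' + 16 * v * g / ((R + R') * R * R')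
        - 16 * v ^ 2 * g ^ 2 * (R' + 2 * R) / (R ^ 3 * (R + R') ^ 2 * R')) := by
  have hg : g = (R ^ 2 - 1) / (4 * v) := by
    field_simp
    linear_combination -e1
  have hg' : g' = (R' ^ 2 - 1) / (4 * v) := by
    field_simp
    linear_combination -e2
  rw [hg, hg']
  field_simp
  ring

/-- the pointwise estimate for `phi` -/
lemma phi_est {c₀ G v : ℝ} (hc : 0 < c₀) (hG : 0 ≤ G) (hv : 0 < v) (hv1 : v ≤ 1) {g g' : ℂ}
    (hg : ‖g‖ ≤ G) (hg' : ‖g'‖ ≤ G) (hR : c₀ ≤ (rt v g).re) (hR' : c₀ ≤ (rt v g').re) :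
    ‖phi v g - phi v g' - dphi v g * (g - g')‖ ≤
      (2 / c₀ + 16 * G / (2 * c₀ * c₀ * c₀) + 16 * G ^ 2 * (3 * (1 + 4 * G)) /
        (c₀ ^ 3 * (2 * c₀) ^ 2 * c₀)) * ‖g - g'‖ ^ 2 := by
  set R := rt v g with hRdef
  set R' := rt v g' with hRdef'
  have e1 : R ^ 2 = 1 + 4 * v * g := by
    rw [hRdef, rt]
    exact Complex.cpow_nat_inv_pow _ two_ne_zero
  have e2 : R' ^ 2 = 1 + 4 * v * g' := by
    rw [hRdef', rt]
    exact Complex.cpow_nat_inv_pow _ two_ne_zero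
  have hRn : c₀ ≤ ‖R‖ := hR.trans (Complex.re_le_norm R)
  have hRn' : c₀ ≤ ‖R'‖ := hR'.trans (Complex.re_le_norm R')
  have hsn : 2 * c₀ ≤ ‖R + R'‖ := by
    refine le_trans ?_ (Complex.re_le_norm _)
    rw [Complex.add_re]
    linarith
  have hupp : ∀ S h : ℂ, ‖h‖ ≤ G → S ^ 2 = 1 + 4 * v * h → ‖S‖ ≤ 1 + 4 * G := by
    intro S h hh hS
    have h1 : ‖S‖ ^ 2 ≤ 1 + 4 * G := by
      rw [← norm_pow, hS]
      refine (norm_add_le _ _).trans ?_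
      rw [norm_one, norm_mul, norm_mul, Complex.norm_real, Real.norm_eq_abs, abs_of_pos hv]
      have e4 : ‖(4 : ℂ)‖ = 4 := by simp
      rw [e4]
      have : v * ‖h‖ ≤ 1 * G := mul_le_mul hv1 hh (norm_nonneg _) (by norm_num)
      nlinarith
    by_contra hcon
    push Not at hcon
    nlinarith [norm_nonneg S]
  have hRu := hupp R g hg e1
  have hRu' := hupp R' g' hg' e2
  have hR0 : R ≠ 0 := norm_pos_iff.mp (hc.trans_le hRn)
  have hR0' : R' ≠ 0 := norm_pos_iff.mp (hc.trans_le hRn')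
  have hs0 : R + R' ≠ 0 := norm_pos_iff.mp (lt_of_lt_of_le (by positivity) hsn)
  have hv0 : (v : ℂ) ≠ 0 := by exact_mod_cast hv.ne'
  have hvn : ‖(v : ℂ)‖ ≤ 1 := by
    rw [Complex.norm_real, Real.norm_eq_abs, abs_of_pos hv]
    exact hv1
  have hid := alg2 hv0 hR0 hR0' hs0 e1 e2
  have hphi : phi v g - phi v g' - dphi v g * (g - g')
      = 2 * g ^ 2 / R - 2 * g' ^ 2 / R' - 4 * g * (1 + 3 * v * g) / R ^ 3 * (g - g') := rfl
  rw [hphi, hid, norm_mul, norm_pow, mul_comm]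
  refine mul_le_mul_of_nonneg_right ?_ (sq_nonneg _)
  have n2 : ‖(2 : ℂ)‖ = 2 := by simp
  have n16 : ‖(16 : ℂ)‖ = 16 := by simp
  refine (norm_sub_le _ _).trans (add_le_add ((norm_add_le _ _).trans (add_le_add ?_ ?_)) ?_)
  · exact ndiv (by rw [norm_neg, n2]) hc hRn'
  · refine ndiv ?_ (by positivity) ?_
    · rw [norm_mul, norm_mul, n16]
      calc 16 * ‖(v : ℂ)‖ * ‖g‖ ≤ 16 * 1 * G := by gcongr
        _ = 16 * G := by ring
    · rw [norm_mul, norm_mul]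
      gcongr
  · refine ndiv ?_ (by positivity) ?_
    · rw [norm_mul, norm_mul, norm_mul, norm_pow, norm_pow, n16]
      have h3 : ‖R' + 2 * R‖ ≤ 3 * (1 + 4 * G) := by
        refine (norm_add_le _ _).trans ?_
        rw [norm_mul, n2]
        linarith
      calc 16 * ‖(v : ℂ)‖ ^ 2 * ‖g‖ ^ 2 * ‖R' + 2 * R‖
          ≤ 16 * 1 ^ 2 * G ^ 2 * (3 * (1 + 4 * G)) := by gcongr
        _ = 16 * G ^ 2 * (3 * (1 + 4 * G)) := by ring
    · rw [norm_mul, norm_mul, norm_pow, norm_pow]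
      gcongr

end UF

/-- U-F2 (expansion of `phi` along one step). -/
theorem step_second {r pm : ℝ} (hr0 : 0 < r) (hr1 : r < 1) (hpm : 0 < pm) (hpm1 : pm ≤ 1) :
    ∃ C δ₀ : ℝ, 0 < C ∧ 0 < δ₀ ∧ δ₀ < 1 ∧ ∀ q : ℝ, 1 - δ₀ ≤ q → q ≤ 1 → ∀ χ w : ℂ, ‖χ‖ = 1 →
      ‖w‖ ≤ r → ∀ p : ℝ, pm ≤ p → p ≤ 1 → ∀ v : ℝ, 0 < v → v ≤ q * p →
      ‖phi v (koebe w / p) - phi v (koebe (kst q χ w) / (q * p))
          - dphi v (koebe w / p) * ((1 + χ) * ((1 - q) * p) * Phi p χ w)‖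
        ≤ C * (1 - q) ^ 2 := by
  have hr2 : 0 < 1 - r := by linarith
  obtain ⟨c₀, hc, hroot⟩ := UF.exists_root_lower hr0 hr1
  set G : ℝ := 2 * (1 / (1 - r) ^ 2) / pm with hGdef
  have hG : 0 ≤ G := by positivity
  set Q : ℝ := 2 / c₀ + 16 * G / (2 * c₀ * c₀ * c₀) + 16 * G ^ 2 * (3 * (1 + 4 * G)) /
        (c₀ ^ 3 * (2 * c₀) ^ 2 * c₀) with hQdef
  have hQ : 0 < Q := by positivity
  set C₁ : ℝ := UF.C1 r pm with hC1def
  have hC1 : 0 < C₁ := UF.C1_pos hr1 hpm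
  set P : ℝ := 2 / (pm ^ 2 * (1 - r) ^ 3 * (1 - r)) with hPdef
  have hP : 0 < P := by positivity
  refine ⟨Q * (2 * P + C₁) ^ 2 + 4 * G * (1 + 3 * G) / c₀ ^ 3 * C₁, (1 - r) ^ 2 / 4,
    by positivity, by positivity, by nlinarith, ?_⟩
  intro q hq hq1 χ w hχ hw p hp hp1 v hv hvp
  have hqh := UF.q_lower hr0 hr1 hq
  have hp0 : 0 < p := hpm.trans_le hp
  have hq0 : 0 < q := by linarith
  have hqp : 0 < q * p := by positivity
  have hv1 : v ≤ 1 := by nlinarith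
  have hw1 : ‖w‖ < 1 := by linarith
  have hk : ‖kst q χ w‖ ≤ r := (UF.norm_kst hq0.le hq1 hχ hw1).trans hw
  set g : ℂ := koebe w / p with hgdef
  set g' : ℂ := koebe (kst q χ w) / (q * p) with hgdef'
  have hg : ‖g‖ ≤ G := by
    rw [hgdef, norm_div, Complex.norm_real, Real.norm_eq_abs, abs_of_pos hp0, hGdef]
    have h1 := UF.norm_koebe hr1 hw
    have h2 : (0 : ℝ) ≤ 1 / (1 - r) ^ 2 := by positivity
    have h3 : ‖koebe w‖ ≤ 2 * (1 / (1 - r) ^ 2) := by linarith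
    gcongr
  have hg' : ‖g'‖ ≤ G := by
    have e : ((q : ℂ) * (p : ℂ)) = ((q * p : ℝ) : ℂ) := by push_cast; ring
    rw [hgdef', e, norm_div, Complex.norm_real, Real.norm_eq_abs, abs_of_pos hqp, hGdef,
      div_le_div_iff₀ hqp hpm]
    have h1 := UF.norm_koebe hr1 hk
    have h2 : (0 : ℝ) ≤ 1 / (1 - r) ^ 2 := by positivity
    have h3 : pm ≤ 2 * (q * p) := by nlinarith
    calc ‖koebe (kst q χ w)‖ * pm ≤ (1 / (1 - r) ^ 2) * (2 * (q * p)) :=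
          mul_le_mul h1 h3 hpm.le h2
      _ = 2 * (1 / (1 - r) ^ 2) * (q * p) := by ring
  have hRlow : c₀ ≤ (rt v g).re := by
    have h1 := hroot (v / p) (by positivity) (by rw [div_le_one hp0]; nlinarith) w hw
    have h2 : (1 + 4 * ((v / p : ℝ) : ℂ) * koebe w : ℂ) = 1 + 4 * v * g := by
      rw [hgdef]
      push_cast
      ring
    rw [h2] at h1
    exact h1
  have hRlow' : c₀ ≤ (rt v g').re := by
    have h1 := hroot (v / (q * p)) (by positivity) (by rw [div_le_one hqp]; exact hvp)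
      (kst q χ w) hk
    have h2 : (1 + 4 * ((v / (q * p) : ℝ) : ℂ) * koebe (kst q χ w) : ℂ) = 1 + 4 * v * g' := by
      rw [hgdef']
      push_cast
      ring
    rw [h2] at h1
    exact h1
  set d₁ : ℂ := (1 + χ) * ((1 - q) * p) * Phi p χ w with hd1def
  have hstep : ‖g - g' - d₁‖ ≤ C₁ * (1 - q) ^ 2 := UF.step_first' hr0 hr1 hpm hq hq1 hχ hw hp
  have hd1 : ‖d₁‖ ≤ 2 * P * (1 - q) := by
    rw [hd1def, norm_mul, norm_mul, norm_mul, UF.norm_one_sub_q hq1, Complex.norm_real,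
      Real.norm_eq_abs, abs_of_pos hp0]
    have hPhi : ‖Phi p χ w‖ ≤ P := by
      unfold Phi
      refine UF.ndiv ?_ (by positivity) ?_
      · rw [norm_mul, norm_pow]
        have n2 : ‖(2 : ℂ)‖ = 2 := by simp
        rw [n2]
        have : ‖w‖ ^ 2 ≤ 1 := pow_le_one₀ (norm_nonneg _) hw1.le
        linarith
      · rw [norm_mul, norm_mul, norm_pow, norm_pow, Complex.norm_real, Real.norm_eq_abs,
          abs_of_pos hp0]
        have h1 := UF.one_sub_lower hw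
        have h2 : 1 - r ≤ ‖1 - χ * w‖ :=
          UF.one_sub_lower (by rw [UF.norm_chi_mul hχ]; exact hw)
        gcongr
    have h1 := UF.norm_one_add_chi hχ
    have h2 : 0 ≤ 1 - q := by linarith
    calc ‖1 + χ‖ * ((1 - q) * p) * ‖Phi p χ w‖ ≤ 2 * ((1 - q) * 1) * P := by gcongr
      _ = 2 * P * (1 - q) := by ring
  have hd : ‖g - g'‖ ≤ (2 * P + C₁) * (1 - q) := by
    have h1 : g - g' = (g - g' - d₁) + d₁ := by ring
    rw [h1]
    refine (norm_add_le _ _).trans ?_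
    have h2 : 0 ≤ 1 - q := by linarith
    have h3 : C₁ * (1 - q) ^ 2 ≤ C₁ * (1 - q) := by
      apply mul_le_mul_of_nonneg_left _ hC1.le
      nlinarith
    linarith
  have hest := UF.phi_est hc hG hv hv1 hg hg' hRlow hRlow'
  have hdphi : ‖dphi v g‖ ≤ 4 * G * (1 + 3 * G) / c₀ ^ 3 := by
    unfold dphi
    refine UF.ndiv ?_ (by positivity) ?_
    · rw [norm_mul, norm_mul]
      have n4 : ‖(4 : ℂ)‖ = 4 := by simp
      rw [n4]
      have h1 : ‖1 + 3 * (v : ℂ) * g‖ ≤ 1 + 3 * G := by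
        refine (norm_add_le _ _).trans ?_
        rw [norm_one, norm_mul, norm_mul, Complex.norm_real, Real.norm_eq_abs, abs_of_pos hv]
        have n3 : ‖(3 : ℂ)‖ = 3 := by simp
        rw [n3]
        have : v * ‖g‖ ≤ 1 * G := mul_le_mul hv1 hg (norm_nonneg _) (by norm_num)
        nlinarith
      gcongr
    · rw [norm_pow]
      have : c₀ ≤ ‖rt v g‖ := hRlow.trans (Complex.re_le_norm _)
      gcongr
  have hfin : phi v g - phi v g' - dphi v g * d₁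
      = (phi v g - phi v g' - dphi v g * (g - g')) + dphi v g * (g - g' - d₁) := by ring
  rw [hfin]
  refine (norm_add_le _ _).trans ?_
  rw [add_mul]
  refine add_le_add (hest.trans ?_) ?_
  · rw [← hQdef, mul_assoc, ← mul_pow]
    gcongr
  · rw [norm_mul, mul_assoc]
    gcongr

end Pool.Agent.Helper64.C3
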