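import Pool.Agent.Helper55.TM.Basic

/-!
# MP_fc8395_an: module LG, product formula and Laguerre inequalities
-/

set_option autoImplicit false

open scoped ContDiff Topology
open Filter Set

namespace TM

lemma LG_enum (L : List ℂ) (n : ℕ) (h : L.length = n) :
    ∃ ζ : Fin n → ℂ, (∀ l, ζ l ∈ L) ∧ ∀ F : ℂ → ℂ, (L.map F).prod = ∏ l, F (ζ l) := by
  subst h
  refine ⟨fun l => L.get l, fun l => List.get_mem L l, fun F => ?_⟩
  rw [← List.prod_ofFn]
  congr 1
  apply List.ext_get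
  · simp
  · intro n h1 h2
    simp

lemma LG_exp_pow (m : ℕ) (τ : ℝ) :
    Complex.exp (Complex.I * m * τ) = Complex.exp (Complex.I * τ) ^ m := by
  rw [← Complex.exp_nat_mul]
  congr 1
  ring

theorem RT_contDiff {c : ℝ} {m : ℕ} {f : ℝ → ℝ} (h : RT c m f) : ContDiff ℝ ∞ f := by
  obtain ⟨Q, -, -, hQ, -⟩ := h
  have hf : f = fun τ : ℝ => (Q.eval (Complex.exp (Complex.I * τ)) *
      Complex.exp (-(Complex.I * m * τ))).re := by
    funext τ
    rw [← hQ τ, mul_assoc, ← Complex.exp_add, add_neg_cancel, Complex.exp_zero, mul_one,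
      Complex.ofReal_re]
  rw [hf]
  have h1 : ContDiff ℝ ∞ (fun τ : ℝ => (τ : ℂ)) := Complex.ofRealCLM.contDiff
  have h2 : ContDiff ℝ ∞ (fun τ : ℝ => Complex.exp (Complex.I * τ)) :=
    (contDiff_const.mul h1).cexp
  have h3 : ContDiff ℝ ∞ (fun τ : ℝ => Complex.exp (-(Complex.I * m * τ))) :=
    (contDiff_const.mul h1).neg.cexp
  have h4 : ContDiff ℝ ∞ (fun z : ℂ => Q.eval z) := ((Q.contDiff_aeval (n := ∞) (𝕜 := ℂ))).restrict_scalars ℝ
  exact Complex.reCLM.contDiff.comp ((h4.comp h2).mul h3)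

theorem RT_periodic {c : ℝ} {m : ℕ} {f : ℝ → ℝ} (h : RT c m f) :
    Function.Periodic f (2 * Real.pi) := by
  obtain ⟨Q, -, -, hQ, -⟩ := h
  intro τ
  have h1 := hQ (τ + 2 * Real.pi)
  have h2 := hQ τ
  have h3 : Complex.exp (Complex.I * ((τ + 2 * Real.pi : ℝ) : ℂ)) =
      Complex.exp (Complex.I * τ) := by
    have : Complex.I * ((τ + 2 * Real.pi : ℝ) : ℂ) =
        Complex.I * τ + 2 * Real.pi * Complex.I := by
      push_cast; ring
    rw [this, Complex.exp_add, Complex.exp_two_pi_mul_I, mul_one]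
  rw [LG_exp_pow, h3, ← h2, LG_exp_pow] at h1
  have h4 : Complex.exp (Complex.I * τ) ^ m ≠ 0 := pow_ne_zero _ (Complex.exp_ne_zero _)
  exact_mod_cast mul_right_cancel₀ h4 h1

/-- one factor -/
lemma LG_factor {z0 ζ : ℂ} (h0 : ‖z0‖ = 1) (hζ : ‖ζ‖ = 1) (hne : z0 ≠ ζ) :
    ∃ a : ℝ, ∀ s : ℝ, z0 * Complex.exp (Complex.I * s) - ζ =
      (z0 - ζ) * (Complex.exp (Complex.I * (s / 2)) *
        ((Real.cos (s / 2) + a * Real.sin (s / 2) : ℝ) : ℂ)) := by
  have hd : z0 - ζ ≠ 0 := sub_ne_zero.2 hne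
  have hz0 : z0 ≠ 0 := by
    rintro rfl; simp at h0
  have hζ0 : ζ ≠ 0 := by
    rintro rfl; simp at hζ
  set A : ℂ := Complex.I * (z0 + ζ) / (z0 - ζ) with hA
  have hcz : (starRingEnd ℂ) z0 = z0⁻¹ := by
    rw [Complex.inv_def, Complex.normSq_eq_norm_sq, h0]; simp
  have hcζ : (starRingEnd ℂ) ζ = ζ⁻¹ := by
    rw [Complex.inv_def, Complex.normSq_eq_norm_sq, hζ]; simp
  have hreal : (starRingEnd ℂ) A = A := by
    rw [hA, map_div₀, map_mul, map_add, map_sub, hcz, hcζ, Complex.conj_I]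
    have hd' : z0⁻¹ - ζ⁻¹ ≠ 0 := by
      intro h
      apply hne
      exact inv_injective (sub_eq_zero.1 h)
    rw [div_eq_div_iff hd' hd]
    field_simp
    ring
  obtain ⟨a, ha⟩ := Complex.conj_eq_iff_real.1 hreal
  refine ⟨a, fun s => ?_⟩
  have hAd : (z0 - ζ) * A = Complex.I * (z0 + ζ) := by
    rw [hA]; field_simp
  have he : Complex.exp (Complex.I * s) = Complex.exp (Complex.I * (s / 2)) *
      Complex.exp (Complex.I * (s / 2)) := by
    rw [← Complex.exp_add]; congr 1; ring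
  have hc : Complex.exp (Complex.I * (s / 2)) =
      Complex.cos (s / 2) + Complex.sin (s / 2) * Complex.I := by
    rw [mul_comm, Complex.exp_mul_I]
  push_cast
  rw [← ha, he, hc]
  have hcs : Complex.cos (s / 2) ^ 2 + Complex.sin (s / 2) ^ 2 = 1 := by
    rw [add_comm]; exact Complex.sin_sq_add_cos_sq _
  have hI : Complex.I ^ 2 = -1 := Complex.I_sq
  set C := Complex.cos (s / 2)
  set S := Complex.sin (s / 2)
  have e1 : (z0 - ζ) * ((C + S * Complex.I) * (C + A * S)) =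
      (C + S * Complex.I) * ((z0 - ζ) * C + ((z0 - ζ) * A) * S) := by ring
  rw [e1, hAd]
  have e2 : ζ = ζ * (C ^ 2 + S ^ 2) := by rw [hcs, mul_one]
  linear_combination (-1) * e2 + (-(ζ * S ^ 2)) * hI

/-- the derivatives of a product at `0` -/
lemma LG_deriv {ι : Type*} [DecidableEq ι] (a : ι → ℝ) (S : Finset ι) :
    ∃ g' : ℝ → ℝ, (∀ s, HasDerivAt
        (fun s => ∏ l ∈ S, (Real.cos (s / 2) + a l * Real.sin (s / 2))) (g' s) s) ∧
      g' 0 = (∑ l ∈ S, a l) / 2 ∧
      HasDerivAt g' (((∑ l ∈ S, a l) / 2) ^ 2 - (∑ l ∈ S, (1 + a l ^ 2)) / 4) 0 := by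
  induction S using Finset.induction_on with
  | empty =>
    refine ⟨fun _ => 0, fun s => ?_, by simp, ?_⟩
    · simpa using hasDerivAt_const s (1 : ℝ)
    · simpa using hasDerivAt_const (0 : ℝ) (0 : ℝ)
  | insert l S hl ih =>
    obtain ⟨g', h1, h2, h3⟩ := ih
    have hh : ∀ s : ℝ, HasDerivAt (fun s => Real.cos (s / 2) + a l * Real.sin (s / 2))
        (-Real.sin (s / 2) / 2 + a l * (Real.cos (s / 2) / 2)) s := by
      intro s
      have e1 : HasDerivAt (fun s : ℝ => s / 2) (1 / 2) s := (hasDerivAt_id s).div_const 2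
      have e2 := (Real.hasDerivAt_cos (s / 2)).comp s e1
      have e3 := ((Real.hasDerivAt_sin (s / 2)).comp s e1).const_mul (a l)
      refine (e2.add e3).congr_deriv ?_
      ring
    have hh' : HasDerivAt (fun s : ℝ => -Real.sin (s / 2) / 2 + a l * (Real.cos (s / 2) / 2))
        (-1 / 4) 0 := by
      have e1 : HasDerivAt (fun s : ℝ => s / 2) (1 / 2) 0 := (hasDerivAt_id (0 : ℝ)).div_const 2
      have e2 := ((Real.hasDerivAt_sin ((0 : ℝ) / 2)).comp 0 e1).neg.div_const 2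
      have e3 := (((Real.hasDerivAt_cos ((0 : ℝ) / 2)).comp 0 e1).div_const 2).const_mul (a l)
      refine (e2.add e3).congr_deriv ?_
      simp
      norm_num
    refine ⟨fun s => (-Real.sin (s / 2) / 2 + a l * (Real.cos (s / 2) / 2)) *
        (∏ l ∈ S, (Real.cos (s / 2) + a l * Real.sin (s / 2))) +
        (Real.cos (s / 2) + a l * Real.sin (s / 2)) * g' s, fun s => ?_, ?_, ?_⟩
    · have e := (hh s).mul (h1 s)
      simp only [Finset.prod_insert hl]
      exact e
    · simp only [zero_div, Real.sin_zero, Real.cos_zero, mul_zero, add_zero, h2,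
        Finset.sum_insert hl]
      simp
      ring
    · have e := (hh'.mul (h1 0)).add ((hh 0).mul h3)
      refine e.congr_deriv ?_
      simp only [zero_div, Real.sin_zero, Real.cos_zero, mul_zero, add_zero, h2,
        Finset.sum_insert hl]
      simp
      ring

theorem RT_prod {c : ℝ} {m : ℕ} {f : ℝ → ℝ} (h : RT c m f) {v : ℝ} (hv : |v| < c) {τ0 : ℝ}
    (hne : f τ0 ≠ v) : ∃ a : Fin (2 * m) → ℝ,
      (∀ s : ℝ, f (τ0 + s) - v
        = (f τ0 - v) * ∏ l, (Real.cos (s / 2) + a l * Real.sin (s / 2))) ∧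
      deriv f τ0 = (f τ0 - v) * (∑ l, a l) / 2 ∧
      deriv f τ0 ^ 2 - (f τ0 - v) * deriv (deriv f) τ0 = (f τ0 - v) ^ 2 * (∑ l, (1 + a l ^ 2)) / 4 := by
  obtain ⟨Q, hdeg, hc0, hfQ, hroots⟩ := h
  set R : Polynomial ℂ := Q - Polynomial.C (v : ℂ) * Polynomial.X ^ m with hR
  have hev : ∀ τ : ℝ, R.eval (Complex.exp (Complex.I * τ)) =
      ((f τ - v : ℝ) : ℂ) * Complex.exp (Complex.I * τ) ^ m := by
    intro τ
    rw [hR, Polynomial.eval_sub, ← hfQ τ, LG_exp_pow]
    simp only [Polynomial.eval_mul, Polynomial.eval_C, Polynomial.eval_pow, Polynomial.eval_X]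
    push_cast
    ring
  set z0 : ℂ := Complex.exp (Complex.I * τ0) with hz0
  have hfv : ((f τ0 - v : ℝ) : ℂ) ≠ 0 := by
    exact_mod_cast sub_ne_zero.2 hne
  have hR0 : R.eval z0 ≠ 0 := by
    rw [hz0, hev τ0]
    exact mul_ne_zero hfv (pow_ne_zero _ (Complex.exp_ne_zero _))
  have hRdeg : R.natDegree = 2 * m := by
    have hle : (Polynomial.C (v : ℂ) * Polynomial.X ^ m).natDegree ≤ m :=
      Polynomial.natDegree_C_mul_X_pow_le _ _
    rcases Nat.eq_zero_or_pos m with hm | hm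
    · subst hm
      have : R.natDegree ≤ 0 := by
        refine (Polynomial.natDegree_sub_le _ _).trans ?_
        rw [hdeg]
        simpa using hle
      omega
    · rw [hR, Polynomial.natDegree_sub_eq_left_of_natDegree_lt, hdeg]
      rw [hdeg]; omega
  have hcard : Multiset.card R.roots = R.natDegree := by
    exact (Polynomial.splits_iff_card_roots.1 (IsAlgClosed.splits R))
  obtain ⟨ζ, hζ1, hζ2⟩ := LG_enum R.roots.toList (2 * m) (by
    rw [Multiset.length_toList, hcard, hRdeg])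
  have hRev : ∀ z, R.eval z = R.leadingCoeff * ∏ l, (z - ζ l) := by
    intro z
    conv_lhs => rw [← Polynomial.C_leadingCoeff_mul_prod_multiset_X_sub_C hcard]
    rw [Polynomial.eval_mul, Polynomial.eval_C, Polynomial.eval_multiset_prod, Multiset.map_map,
      ← hζ2 (fun w => z - w)]
    congr 1
    have : R.roots.map ((Polynomial.eval z) ∘ fun a => Polynomial.X - Polynomial.C a) =
        R.roots.map (fun w => z - w) := by
      apply Multiset.map_congr rfl
      intro w _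
      simp
    rw [this]
    conv_lhs => rw [← Multiset.coe_toList R.roots]
    rw [Multiset.map_coe, Multiset.prod_coe]
  have hz0n : ‖z0‖ = 1 := by
    rw [hz0, mul_comm, Complex.norm_exp_ofReal_mul_I]
  have hζn : ∀ l, ‖ζ l‖ = 1 := by
    intro l
    have h1 : ζ l ∈ R.roots := Multiset.mem_toList.1 (hζ1 l)
    have h2 : R.eval (ζ l) = 0 := (Polynomial.mem_roots'.1 h1).2
    apply hroots v hv
    rw [hR] at h2
    simp only [Polynomial.eval_sub, Polynomial.eval_mul, Polynomial.eval_C, Polynomial.eval_pow,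
      Polynomial.eval_X] at h2
    exact sub_eq_zero.1 h2
  have hζne : ∀ l, z0 ≠ ζ l := by
    intro l hl
    apply hR0
    rw [hRev z0]
    have : ∏ l, (z0 - ζ l) = 0 := Finset.prod_eq_zero (Finset.mem_univ l) (by rw [← hl]; simp)
    rw [this, mul_zero]
  choose a ha using fun l => LG_factor hz0n (hζn l) (hζne l)
  have hprod : ∀ s : ℝ, f (τ0 + s) - v
      = (f τ0 - v) * ∏ l, (Real.cos (s / 2) + a l * Real.sin (s / 2)) := by
    intro s
    have e1 : Complex.exp (Complex.I * ((τ0 + s : ℝ) : ℂ)) =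
        z0 * Complex.exp (Complex.I * s) := by
      rw [hz0, ← Complex.exp_add]; congr 1; push_cast; ring
    have e2 := hev (τ0 + s)
    rw [e1, hRev] at e2
    have e3 := hev τ0
    rw [← hz0, hRev] at e3
    have e4 : ∏ l, (z0 * Complex.exp (Complex.I * s) - ζ l) =
        (∏ l, (z0 - ζ l)) * (Complex.exp (Complex.I * s) ^ m *
          ((∏ l, (Real.cos (s / 2) + a l * Real.sin (s / 2)) : ℝ) : ℂ)) := by
      rw [Finset.prod_congr rfl (fun l _ => ha l s), Finset.prod_mul_distrib,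
        Finset.prod_mul_distrib, Finset.prod_const, Finset.card_univ, Fintype.card_fin]
      congr 2
      · rw [pow_mul, ← Complex.exp_nat_mul]
        congr 2
        push_cast
        ring
      · push_cast
        rfl
    rw [e4, ← mul_assoc, e3] at e2
    have e5 : z0 ^ m ≠ 0 := pow_ne_zero _ (Complex.exp_ne_zero _)
    have e6 : Complex.exp (Complex.I * s) ^ m ≠ 0 := pow_ne_zero _ (Complex.exp_ne_zero _)
    rw [mul_pow] at e2
    have e7 : (z0 ^ m * Complex.exp (Complex.I * s) ^ m) *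
        (((f τ0 - v) * ∏ l, (Real.cos (s / 2) + a l * Real.sin (s / 2)) : ℝ) : ℂ) =
        (z0 ^ m * Complex.exp (Complex.I * s) ^ m) * ((f (τ0 + s) - v : ℝ) : ℂ) := by
      rw [Complex.ofReal_mul]
      linear_combination e2
    have e8 := mul_left_cancel₀ (mul_ne_zero e5 e6) e7
    exact_mod_cast e8.symm
  refine ⟨a, hprod, ?_⟩
  obtain ⟨g', h1, h2, h3⟩ := LG_deriv a (Finset.univ : Finset (Fin (2 * m)))
  have hf : f = fun τ => v + (f τ0 - v) *
      ∏ l, (Real.cos ((τ - τ0) / 2) + a l * Real.sin ((τ - τ0) / 2)) := by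
    funext τ
    have := hprod (τ - τ0)
    rw [add_sub_cancel] at this
    linarith
  have hd : ∀ τ, HasDerivAt f ((f τ0 - v) * g' (τ - τ0)) τ := by
    intro τ
    have e1 : HasDerivAt (fun τ : ℝ => τ - τ0) 1 τ := (hasDerivAt_id τ).sub_const τ0
    have e2 := (((h1 (τ - τ0)).comp τ e1).const_mul (f τ0 - v)).const_add v
    rw [hf]
    refine HasDerivAt.congr_deriv (f := fun τ => v + (f τ0 - v) *
      ∏ l, (Real.cos ((τ - τ0) / 2) + a l * Real.sin ((τ - τ0) / 2))) ?_ ?_ (f' :=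
        (f τ0 - v) * (g' (τ - τ0) * 1))
    · exact e2
    · rw [mul_one, ← hf]
  have hd1 : deriv f = fun τ => (f τ0 - v) * g' (τ - τ0) := funext fun τ => (hd τ).deriv
  have hd2 : HasDerivAt (deriv f) ((f τ0 - v) * (((∑ l, a l) / 2) ^ 2 -
      (∑ l, (1 + a l ^ 2)) / 4)) τ0 := by
    rw [hd1]
    have e1 : HasDerivAt (fun τ : ℝ => τ - τ0) 1 τ0 := (hasDerivAt_id τ0).sub_const τ0
    have e3 : HasDerivAt g' (((∑ l, a l) / 2) ^ 2 - (∑ l, (1 + a l ^ 2)) / 4)
        ((fun τ : ℝ => τ - τ0) τ0) := by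
      simp only [sub_self]; exact h3
    have e2 := (HasDerivAt.comp (h := fun τ : ℝ => τ - τ0) τ0 e3 e1).const_mul (f τ0 - v)
    rw [mul_one] at e2
    exact e2
  have hd0 : deriv f τ0 = (f τ0 - v) * ((∑ l, a l) / 2) := by
    rw [(hd τ0).deriv, sub_self, h2]
  refine ⟨by rw [hd0]; ring, ?_⟩
  rw [hd2.deriv, hd0]
  ring

theorem RT_tame {c : ℝ} {m : ℕ} {f : ℝ → ℝ} (h : RT c m f) {τ : ℝ} (hτ : |f τ| < c) :
    |deriv (deriv f) τ| * (c - |f τ|) ≤ deriv f τ ^ 2 ∧
      (m : ℝ) / 2 * (c ^ 2 - f τ ^ 2) ≤ deriv f τ ^ 2 := by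
  have hc : 0 < c := (abs_nonneg _).trans_lt hτ
  have hτ' := abs_lt.1 hτ
  have key : ∀ v : ℝ, |v| < c → f τ ≠ v →
      0 ≤ deriv f τ ^ 2 - (f τ - v) * deriv (deriv f) τ - (m : ℝ) / 2 * (f τ - v) ^ 2 := by
    intro v hv hne
    obtain ⟨a, -, -, h3⟩ := RT_prod h hv hne
    rw [h3]
    have h4 : (2 * m : ℝ) ≤ ∑ l, (1 + a l ^ 2) := by
      have : ∑ _l : Fin (2 * m), (1 : ℝ) ≤ ∑ l, (1 + a l ^ 2) :=
        Finset.sum_le_sum fun l _ => by nlinarith [sq_nonneg (a l)]
      simpa using this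
    have h5 := mul_le_mul_of_nonneg_left h4 (sq_nonneg (f τ - v))
    nlinarith
  have hcont : Continuous fun v : ℝ =>
      deriv f τ ^ 2 - (f τ - v) * deriv (deriv f) τ - (m : ℝ) / 2 * (f τ - v) ^ 2 := by
    fun_prop
  have hplus : 0 ≤ deriv f τ ^ 2 - (f τ - c) * deriv (deriv f) τ -
      (m : ℝ) / 2 * (f τ - c) ^ 2 := by
    refine ge_of_tendsto ((hcont.tendsto c).mono_left (nhdsWithin_le_nhds (s := Iio c))) ?_
    filter_upwards [Ioo_mem_nhdsLT hτ] with v hv
    refine key v ?_ ?_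
    · rw [abs_lt]; exact ⟨by linarith [(abs_nonneg (f τ)), hv.1], hv.2⟩
    · rintro rfl
      exact absurd hv.1 (not_lt.2 (le_abs_self _))
  have hminus : 0 ≤ deriv f τ ^ 2 - (f τ - -c) * deriv (deriv f) τ -
      (m : ℝ) / 2 * (f τ - -c) ^ 2 := by
    refine ge_of_tendsto ((hcont.tendsto (-c)).mono_left (nhdsWithin_le_nhds (s := Ioi (-c)))) ?_
    have : -c < -|f τ| := by linarith
    filter_upwards [Ioo_mem_nhdsGT this] with v hv
    refine key v ?_ ?_
    · rw [abs_lt]; exact ⟨hv.1, by linarith [(abs_nonneg (f τ)), hv.2]⟩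
    · rintro rfl
      exact absurd hv.2 (not_lt.2 (neg_abs_le _))
  have hm : (0 : ℝ) ≤ (m : ℝ) / 2 := by positivity
  constructor
  · rcases le_or_gt 0 (deriv (deriv f) τ) with h2 | h2
    · rw [abs_of_nonneg h2]
      have e1 : c - |f τ| ≤ f τ - -c := by linarith [neg_abs_le (f τ)]
      have e2 := mul_le_mul_of_nonneg_left e1 h2
      have e3 := mul_nonneg hm (sq_nonneg (f τ - -c))
      linarith
    · rw [abs_of_neg h2]
      have e1 : c - |f τ| ≤ c - f τ := by linarith [le_abs_self (f τ)]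
      have e2 := mul_le_mul_of_nonneg_left e1 (neg_nonneg.2 h2.le)
      have e3 := mul_nonneg hm (sq_nonneg (f τ - c))
      linarith
  · have e1 := mul_nonneg (by linarith : 0 ≤ c - f τ) hminus
    have e2 := mul_nonneg (by linarith : 0 ≤ c + f τ) hplus
    have e3 : 2 * c * ((m : ℝ) / 2 * (c ^ 2 - f τ ^ 2)) ≤ 2 * c * deriv f τ ^ 2 := by
      nlinarith
    exact le_of_mul_le_mul_left e3 (by linarith)

end TM
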